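import Mathlib
import Pool.Agent.Sep.Final

/-!
The separation property for `Σ¹₃` and for `Π¹₃` at the same time.
-/

universe u

namespace Pool.Agent.Results.MP_1b3f07_lc.BothSeparations

open Pool.Agent.SigB Pool.Agent.Sep

/-- For every model `M` of ZFC there are a countable model `K` of ZFC, well-founded if `M` is
well-founded, and a forcing extension `N` of `K` which is a model of ZFC with the
`Σ¹₃`-separation property and the `Π¹₃`-separation property. -/
theorem result (M : Type u) [Membership M M] [IsZFC M] :
    ∃ (K N : Type u) (_ : Membership K K) (_ : Membership N N), Countable K ∧ IsZFC K ∧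
      (WellFounded (fun x y : M => x ∈ y) → WellFounded (fun x y : K => x ∈ y)) ∧
      IsForcingExtension K N ∧ IsZFC N ∧ SigmaSep N ∧ PiSep N :=
  exists_bothSep M

end Pool.Agent.Results.MP_1b3f07_lc.BothSeparations
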