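import Pool.Agent.Work.MP_1b3f07_lc.Main

/-!
# Simultaneous separation excludes a coding of the ambiguous sets

If `Σ^1_(n+1)` and `Π^1_(n+1)` both have the separation property, then the `Δ^1_(n+1)` sets are not
coded by countably many pairs of disjoint sets, each pair being from one of the two classes, even
up to preimages under functions with `Σ^1_n` graphs.
-/

namespace Pool.Agent.Results.MP_1b3f07_lc.NoCoding

open Pool.Agent.Sep3 Set

theorem result (n : ℕ) (hn : 1 ≤ n) (hS : Sep (IsSig (n + 1))) (hP : Sep fun A => IsSig (n + 1) Aᶜ)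
    (P Q : ℕ → Set (Bai × Bai)) (hd : ∀ k, Disjoint (P k) (Q k))
    (h : ∀ k, (IsSig (n + 1) (P k) ∧ IsSig (n + 1) (Q k)) ∨
      (IsSig (n + 1) (P k)ᶜ ∧ IsSig (n + 1) (Q k)ᶜ)) :
    ∃ C : Set Bai, IsSig (n + 1) C ∧ IsSig (n + 1) Cᶜ ∧ ∀ (k : ℕ) (d : Bai) (f : Bai → Bai),
      IsSig n {z : Bai × Bai | z.2 = f z.1} →
      ¬(C = {x | (d, f x) ∈ P k} ∧ Cᶜ = {x | (d, f x) ∈ Q k}) := by
  obtain ⟨m, rfl⟩ : ∃ m, n = m + 1 := ⟨n - 1, by omega⟩
  exact exists_all hS hP P Q hd h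

end Pool.Agent.Results.MP_1b3f07_lc.NoCoding
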